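import Pool.Agent.Work.MP_e522c7_an.Main

namespace Pool.Agent.Results.MP_e522c7_an.GlobalSolution

open MeasureTheory Pool.Agent.Work.MP_e522c7_an

/-- In dimension 3 there is a global, nonnegative, uniformly bounded classical solution of the
parabolic-elliptic Keller-Segel system, with finite mass and finite second moment at all times,
whose initial datum has initially decreasing second moment. -/
theorem result :
    ∃ n : ℝ → EuclideanSpace ℝ (Fin 3) → ℝ,
      ContDiff ℝ 3 (fun p : ℝ × EuclideanSpace ℝ (Fin 3) => n p.1 p.2) ∧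
      (∀ t, 0 ≤ t → ∀ x, 0 ≤ n t x ∧ n t x ≤ 1 / (1 + t)) ∧
      (∀ t, 0 ≤ t → Integrable (n t) ∧ Integrable (fun x => ‖x‖ ^ 2 * n t x)) ∧
      (∀ t, 0 ≤ t → ∀ x,
        deriv (fun s => n s x) t =
          Laplacian.laplacian (n t) x
            - fderiv ℝ (n t) x
                ((-(1 / (4 * Real.pi))) • ∫ y, (n t y / ‖x - y‖ ^ 3) • (x - y))
            + n t x ^ 2) ∧
      2 * 3 * (∫ x, n 0 x) * (4 * Real.pi) < ∫ x, ∫ y, n 0 x * n 0 y / ‖x - y‖ := by
  obtain ⟨L, u, g, hL, hu, hpos, hE, hg, hpde⟩ := exists_solution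
  have huc := hu.continuous
  have hs : sig = 4 * Real.pi := by
    rw [sig, EuclideanSpace.volume_ball_fin_three, ENNReal.toReal_mul, ENNReal.toReal_ofReal
      (by positivity)]
    simp
    ring
  refine ⟨fun t x => u (t + 1, x), hu.contDiff.comp
      ((contDiff_fst.add contDiff_const).prodMk contDiff_snd), fun t ht x => ⟨hpos _ (by linarith) x,
      ?_⟩, fun t ht => ⟨hu.integrable_slice hL (by linarith), ?_⟩, fun t ht x => ?_, ?_⟩
  · have h1 := hu.bound (t + 1, x)
    have h2 := W_le_inv hL (show 0 ≤ t + 1 by linarith) x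
    have h3 : (1 + 2 * (t + 1))⁻¹ ≤ 1 / (1 + t) := by
      rw [one_div]; exact inv_anti₀ (by linarith) (by linarith)
    have h4 := le_abs_self (u (t + 1, x))
    linarith
  · refine (integrable_sq_mul_W hL (show 0 ≤ t + 1 by linarith)).mono'
      (Continuous.aestronglyMeasurable (by fun_prop)) (Filter.Eventually.of_forall fun x => ?_)
    rw [Real.norm_eq_abs, abs_mul, abs_of_nonneg (sq_nonneg _)]
    exact mul_le_mul_of_nonneg_left (by simpa using hu.bound (t + 1, x)) (sq_nonneg _)
  · have h1 := hpde (t + 1, x)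
    rw [hg _ (by simp only; linarith), add_zero] at h1
    have h2 := fun i => iteratedFDeriv_space hu.of_succ (t + 1) x i
    have h3 := fun i => Kop_eq hL zero_le_one hu (show 0 ≤ t + 1 by linarith) x i
    simp only [eE] at h2
    rw [deriv_time hu.1, h1, fderiv_space hu.1,
      InnerProductSpace.laplacian_eq_iteratedFDeriv_orthonormalBasis _
        (EuclideanSpace.basisFun (Fin 3) ℝ)]
    simp only [EuclideanSpace.basisFun_apply, h2, h3, hs]
  · simpa [hs] using hE

end Pool.Agent.Results.MP_e522c7_an.GlobalSolution
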